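import Pool.Agent.Helper126.CpHomeo

/-!
# Homeomorphisms of function spaces and the character
-/

set_option autoImplicit false

open Set Topology Filter

namespace Pool.Agent.Y586.LW

open Pool.Agent.Helper126

variable {A B : Type*} [TopologicalSpace A] [T35Space A] [TopologicalSpace B] [T35Space B]

/-- basic neighbourhoods of tuples -/
def NU {A I : Type*} (u : A → I → Set A) {m : ℕ} (p : Finset I) (y : Fin m → A) :
    Set (Fin m → A) :=
  {x | ∀ j, ∀ i ∈ p, x j ∈ u (y j) i}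

omit [T35Space A] in
theorem NU_of_tendsto {I J : Type*} {u : A → I → Set A} (hu : ∀ a, 𝓝 a = ⨅ i, 𝓟 (u a i)) {m : ℕ}
    (p : Finset I) {y : Fin m → A} {a : J → Fin m → A} {V : Filter J}
    (h : ∀ j, Tendsto (fun c => a c j) V (𝓝 (y j))) :
    ∀ᶠ c in V, a c ∈ NU u p y := by
  refine Filter.eventually_all.mpr fun j => (Filter.eventually_all_finset _).mpr fun i _ => ?_
  refine h j ?_
  rw [hu]
  exact Filter.mem_iInf_of_mem i (Filter.mem_principal_self _)

omit [T35Space A] in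
theorem tendsto_of_NU {I J : Type*} {u : A → I → Set A} (hu : ∀ a, 𝓝 a = ⨅ i, 𝓟 (u a i)) {m : ℕ}
    {y : Fin m → A} {a : J → Fin m → A} {V : Filter J}
    (h : ∀ p : Finset I, ∀ᶠ c in V, a c ∈ NU u p y) :
    ∀ j, Tendsto (fun c => a c j) V (𝓝 (y j)) := by
  intro j
  rw [hu, tendsto_iInf]
  intro i
  rw [tendsto_principal]
  filter_upwards [h {i}] with c hc
  exact hc j i (by simp)

theorem NU_select {A I J : Type*} (u : A → I → Set A) {m : ℕ} {L : Set (Fin m → A)}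
    (hL : L.Finite)
    {a : J → Fin m → A} (V : Ultrafilter J)
    (h : ∀ p : Finset I, ∀ᶠ c in (V : Filter J), ∃ y ∈ L, a c ∈ NU u p y) :
    ∃ y ∈ L, ∀ p : Finset I, ∀ᶠ c in (V : Filter J), a c ∈ NU u p y := by
  classical
  by_contra hcon
  push Not at hcon
  choose! p hp using hcon
  let P : Finset I := hL.toFinset.biUnion p
  have hsub : ∀ y ∈ L, NU u P y ⊆ NU u (p y) y := by
    intro y hy x hx j i hi
    have hy' : y ∈ hL.toFinset := by simpa using hy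
    exact hx j i (Finset.mem_biUnion.mpr ⟨y, hy', hi⟩)
  have h2 : ∀ᶠ c in (V : Filter J), ∀ y ∈ hL.toFinset, a c ∉ NU u (p y) y := by
    refine (Filter.eventually_all_finset _).mpr fun y hy => ?_
    exact hp y (by simpa using hy)
  obtain ⟨c, ⟨y, hy, hc1⟩, hc2⟩ := ((h P).and h2).exists
  exact hc2 y (by simpa using hy) (hsub y hy hc1)

theorem local_base {I : Type*} {u : A → I → Set A} (hu : ∀ a, 𝓝 a = ⨅ i, 𝓟 (u a i))
    (h : Cp A ≃ₜ Cp B)
    (h0 : ∀ b, (h ⟨fun _ => 0, continuous_const⟩).1 b = 0) (n m : ℕ) (b : B) (hb : b ∈ Piece h n m) :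
    ∃ V : Finset I → Set B, (∀ p, V p ∈ 𝓝 b) ∧ ∀ U ∈ 𝓝 b, ∃ p, V p ∩ Piece h n m ⊆ U := by
  classical
  have hL : {x : Fin m → A | PT h n x b}.Finite := finite_PT h h.continuous n m b hb.2
  choose G hG using fun x : Fin m → A => point_converges h h0 n m x
  let Γ : Finset B := hL.toFinset.biUnion G
  obtain ⟨O, hO, hOc, hOΓ⟩ : ∃ O ∈ 𝓝 b, IsClosed O ∧ ∀ c ∈ O, c ∈ Γ → c = b := by
    have h1 : (((Γ.erase b : Finset B) : Set B)ᶜ) ∈ 𝓝 b :=
      (Finset.isClosed _).isOpen_compl.mem_nhds (by simp)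
    obtain ⟨O, hO, hOc, hO2⟩ := exists_mem_nhds_isClosed_subset h1
    refine ⟨O, hO, hOc, fun c hc hcΓ => ?_⟩
    by_contra hcb
    exact hO2 hc (by simp [hcb, hcΓ])
  have key : ∀ p : Finset I, ∀ᶠ c in 𝓝 b, c ∈ Piece h n m → ∀ x : Fin m → A, PT h n x c →
      ∃ y ∈ {x : Fin m → A | PT h n x b}, x ∈ NU u p y := by
    intro p
    refine Filter.mem_iff_ultrafilter.mpr fun V hV1 => ?_
    by_contra hcon
    have hV2 := Ultrafilter.compl_mem_iff_notMem.mpr hcon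
    have hch : ∀ c : B, ∃ x : Fin m → A, (¬ (c ∈ Piece h n m → ∀ x : Fin m → A, PT h n x c →
      ∃ y ∈ {x : Fin m → A | PT h n x b}, x ∈ NU u p y)) → PT h n x c ∧ ∀ y, PT h n y b → x ∉ NU u p y := by
      intro c
      by_cases hc : (c ∈ Piece h n m → ∀ x : Fin m → A, PT h n x c →
        ∃ y ∈ {x : Fin m → A | PT h n x b}, x ∈ NU u p y)
      · exact ⟨hb.1.choose, fun hc' => absurd hc hc'⟩
      · have hc2 := hc
        push Not at hc2
        obtain ⟨_, x, hx1, hx2⟩ := hc2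
        exact ⟨x, fun _ => ⟨hx1, hx2⟩⟩
    choose a ha using hch
    obtain ⟨x, hx1, hx2⟩ := coord_converges h h.continuous n m b hb.2 V hV1 a
      (Filter.mem_of_superset hV2 fun c hc => (ha c hc).1)
    obtain ⟨c, hc1, hc2⟩ := ((NU_of_tendsto hu p hx1).and hV2).exists
    exact (ha c hc2).2 x hx2 hc1
  refine ⟨fun p => {c | c ∈ O ∧ (c ∈ Piece h n m → ∀ x : Fin m → A, PT h n x c →
      ∃ y ∈ {x : Fin m → A | PT h n x b}, x ∈ NU u p y)}, fun p => Filter.inter_mem hO (key p), ?_⟩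
  intro U hU
  by_contra hcon
  push Not at hcon
  -- an ultrafilter containing all the sets
  have hne : (⨅ p : Finset I, 𝓟 (({c | c ∈ O ∧ (c ∈ Piece h n m → ∀ x : Fin m → A, PT h n x c →
      ∃ y ∈ {x : Fin m → A | PT h n x b}, x ∈ NU u p y)} ∩ Piece h n m) \ U)).NeBot := by
    apply Filter.iInf_neBot_of_directed'
    · intro p q
      refine ⟨p ∪ q, ?_, ?_⟩
      · refine Filter.principal_mono.mpr ?_
        rintro c ⟨⟨⟨hc1, hc2⟩, hc3⟩, hc4⟩
        refine ⟨⟨⟨hc1, fun _ x hx => ?_⟩, hc3⟩, hc4⟩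
        obtain ⟨y, hy, hxy⟩ := hc2 hc3 x hx
        exact ⟨y, hy, fun j i hi => hxy j i (Finset.mem_union_left _ hi)⟩
      · refine Filter.principal_mono.mpr ?_
        rintro c ⟨⟨⟨hc1, hc2⟩, hc3⟩, hc4⟩
        refine ⟨⟨⟨hc1, fun _ x hx => ?_⟩, hc3⟩, hc4⟩
        obtain ⟨y, hy, hxy⟩ := hc2 hc3 x hx
        exact ⟨y, hy, fun j i hi => hxy j i (Finset.mem_union_right _ hi)⟩
    · intro p
      rw [Filter.principal_neBot_iff]
      obtain ⟨c, hc1, hc2⟩ := Set.not_subset.mp (hcon p)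
      exact ⟨c, hc1, hc2⟩
  obtain ⟨V, hV⟩ := @Ultrafilter.exists_le _ _ hne
  have hV' : ∀ p : Finset I, (({c | c ∈ O ∧ (c ∈ Piece h n m → ∀ x : Fin m → A, PT h n x c →
      ∃ y ∈ {x : Fin m → A | PT h n x b}, x ∈ NU u p y)} ∩ Piece h n m) \ U) ∈ (V : Filter B) := fun p =>
    Filter.le_principal_iff.mp (hV.trans (iInf_le _ p))
  have hch : ∀ c : B, ∃ x : Fin m → A, c ∈ Piece h n m → PT h n x c := by
    intro c
    by_cases hc : c ∈ Piece h n m
    · obtain ⟨x, hx⟩ := hc.1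
      exact ⟨x, fun _ => hx⟩
    · exact ⟨hb.1.choose, fun hc' => absurd hc' hc⟩
  choose a ha using hch
  have haV : ∀ᶠ c in (V : Filter B), PT h n (a c) c :=
    Filter.mem_of_superset (hV' ∅) fun c hc => ha c hc.1.2
  obtain ⟨y, hy, hyV⟩ := NU_select u hL (a := a) V (fun p => by
    refine Filter.mem_of_superset (hV' p) fun c hc => ?_
    exact hc.1.1.2 hc.1.2 (a c) (ha c hc.1.2))
  have hyt := tendsto_of_NU hu hyV
  obtain ⟨c, hc, hcV⟩ := hG y V a hyt haV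
  have hcO : c ∈ O := by
    refine isClosed_iff_ultrafilter.mp hOc c V hcV ?_
    exact Filter.mem_of_superset (hV' ∅) fun c hc => hc.1.1.1
  have hcb : c = b := hOΓ c hcO (Finset.mem_biUnion.mpr ⟨y, by simpa using hy, hc⟩)
  subst hcb
  have h1 : U ∈ (V : Filter B) := hcV hU
  obtain ⟨z, hz1, hz2⟩ := Filter.nonempty_of_mem (Filter.inter_mem h1 (hV' ∅))
  exact hz2.2 hz1

/-- The main cardinality estimate. -/
theorem cover_of_homeo {X F I : Type*} [TopologicalSpace X] [T35Space X] (j : F → X)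
    (hj : Function.Injective j) (u : A → I → Set A) (hu : ∀ a, 𝓝 a = ⨅ i, 𝓟 (u a i))
    (h : Cp A ≃ₜ Cp (CpR j)) : ∃ D : Finset I → Finset F, ∀ x : F, ∃ p, x ∈ D p := by
  obtain ⟨h', h0⟩ := exists_norm_homeo h
  refine cover_of_pieces j hj (J := ℕ × ℕ) (I' := Finset I) (fun q => Piece h' q.1 q.2) ?_ ?_
  · intro b
    obtain ⟨n, m, hb⟩ := exists_Piece h' h'.continuous h0 b
    exact ⟨(n, m), hb⟩
  · intro q b hb
    exact local_base hu h' h0 q.1 q.2 b hb

end Pool.Agent.Y586.LW
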